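import Mathlib
import Pool.Agent.H6.OsiDefs
import Pool.Agent.H6.OsiNear
import Pool.Agent.H6.OsiQ2b

set_option autoImplicit false

/-!
MP_082b65_an: randomized SVD with oblivious subspace injections.
-/

namespace Pool.Agent.Results.MP_082b65_an.RandomizedSVD

open MeasureTheory Pool.Agent.H6.Osi

/-- There are a matrix `A` and an oblivious subspace injection with dimension `1`, injectivity
`1 - ε` and failure probability `δ`, for which the randomized SVD error is at most `K` times the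
optimal rank-one error only with probability less than `p`. -/
def FailsFor (ε δ K p : ℝ) : Prop :=
  ∃ (n d k : ℕ) (A : Matrix (Fin n) (Fin d) ℝ) (S : Type) (_ : MeasurableSpace S)
    (P : Measure S) (_ : IsProbabilityMeasure P) (Om : S → Matrix (Fin d) (Fin k) ℝ),
    IsOSI P Om 1 (1 - ε) δ ∧
      P.real {s | frob (A - rsvd A (Om s)) ≤ K * optErr A 1} < p

lemma q1_strong : ∃ η : ℝ, 0 < η ∧ ∀ p : ℝ, 0 < p → ∀ ε : ℝ, 0 ≤ ε →
    FailsFor ε 0.01 (1 + η) p := by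
  have hk : (16000000 : ℕ) ≤ 16000000 := le_rfl
  generalize hkk : (16000000 : ℕ) = k at hk
  have hk16 : 16000000 ≤ k := hkk.le
  have hk1 : 1 ≤ k := by omega
  refine ⟨1 / (7 * (2 * k + 1)), by positivity, fun p hp ε hε => ?_⟩
  obtain ⟨N, hN⟩ := exists_nat_gt (8 * (k : ℝ) ^ 4 / p)
  set m := max N (2 + 2 * k * (2 * k + 1)) with hm
  have hmN : (N : ℝ) ≤ m := by exact_mod_cast le_max_left _ _
  have hm2 : 2 + 2 * k * (2 * k + 1) ≤ m := le_max_right _ _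
  have hm0 : (0 : ℝ) < m := by
    have : 0 < m := by omega
    exact_mod_cast this
  have hprob := @unif_prob (Smp m k) _ _
  refine ⟨m + 1, m + 1, k, hard m, Smp m k, ⊤, unif (Smp m k), hprob, OmM, ?_, ?_⟩
  · let _ : MeasurableSpace (Smp m k) := ⊤
    have : IsProbabilityMeasure (unif (Smp m k)) := hprob
    exact (isOSI_OmM m k hk16).mono (by linarith)
  · refine lt_of_le_of_lt (hard_prob m k hk1 hm2 _ (by positivity) le_rfl) ?_
    rw [div_lt_iff₀ hp] at hN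
    rw [div_lt_iff₀ hm0]
    nlinarith

lemma q1_literal (C p : ℝ) (hC : 0 < C) (hp : 0 < p) : ∃ ε₁ : ℝ, 0 < ε₁ ∧
    ∀ ε, 0 < ε → ε < ε₁ → FailsFor ε 0.01 (1 + C * ε) p := by
  obtain ⟨η, hη, h⟩ := q1_strong
  refine ⟨η / C, by positivity, fun ε hε hε1 => ?_⟩
  obtain ⟨n, d, k, A, S, hS, P, hP, Om, h1, h2⟩ := h p hp ε hε.le
  refine ⟨n, d, k, A, S, hS, P, hP, Om, h1, lt_of_le_of_lt ?_ h2⟩
  refine measureReal_mono (fun s hs => ?_) (measure_ne_top _ _)
  have hs' : frob (A - rsvd A (Om s)) ≤ (1 + C * ε) * optErr A 1 := hs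
  refine hs'.trans (mul_le_mul_of_nonneg_right ?_ (optErr_nonneg A 1))
  rw [lt_div_iff₀ hC] at hε1
  linarith

lemma near_one (C p δ : ℝ) (hC : 0 < C) (hp : 0 < p) (hδ : 0 < δ) : ∃ ε : ℝ, 0 < ε ∧ ε < 1 ∧
    FailsFor ε δ (1 + C * ε) p := by
  obtain ⟨k0, hk0⟩ := exists_nat_gt (8 / δ)
  set k := k0 + 1 with hk
  have hkr : (k : ℝ) = k0 + 1 := by rw [hk]; push_cast; rfl
  have hk1 : 1 ≤ k := by omega
  have hkpos : (0 : ℝ) < k := by exact_mod_cast hk1
  have hkδ : 8 / (k : ℝ) ≤ δ := by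
    rw [div_lt_iff₀ hδ] at hk0
    rw [div_le_iff₀ hkpos, hkr]
    nlinarith
  obtain ⟨m0, hm0⟩ := exists_nat_gt (8 * (k : ℝ) ^ 4 / (p / 2))
  set m := m0 + 1 with hm
  have hmr : (m : ℝ) = m0 + 1 := by rw [hm]; push_cast; rfl
  have hm1 : 1 ≤ m := by omega
  have hmpos : (0 : ℝ) < m := by exact_mod_cast hm1
  have hmp : 8 * (k : ℝ) ^ 4 / m < p / 2 := by
    rw [div_lt_iff₀ (by positivity)] at hm0
    rw [div_lt_iff₀ hmpos, hmr]
    nlinarith
  obtain ⟨M, hM⟩ := exists_nat_gt (1 / (p / 2))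
  have hMp : 1 / ((M : ℝ) + 1) < p / 2 := by
    rw [div_lt_iff₀ (by positivity)] at hM
    rw [div_lt_iff₀ (by positivity)]
    nlinarith
  obtain ⟨K, hK1, hK2, hK3⟩ : ∃ K : ℝ, 0 < K ∧ Real.sqrt m ≤ K ∧
      (1 + C) ^ 2 * m * (2 * k + 1) < K ^ 2 := by
    refine ⟨(1 + C) ^ 2 * m * (2 * k + 1) + 1, by positivity, ?_, ?_⟩
    · have h1 : Real.sqrt m ≤ m := by
        rw [Real.sqrt_le_left hmpos.le]
        have : (1 : ℝ) ≤ m := by exact_mod_cast hm1
        nlinarith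
      have h2 : (m : ℝ) ≤ (1 + C) ^ 2 * m * (2 * k + 1) := by
        have h3 : (1 : ℝ) ≤ (1 + C) ^ 2 := by nlinarith
        have h4 : (1 : ℝ) ≤ 2 * k + 1 := by linarith
        have h5 : (1 : ℝ) ≤ (1 + C) ^ 2 * (2 * k + 1) := by nlinarith
        nlinarith
      linarith
    · have : 0 < (1 + C) ^ 2 * m * (2 * (k : ℝ) + 1) := by positivity
      nlinarith
  set s0 := Real.sqrt m / K with hs0
  have hs00 : 0 < s0 := by positivity
  have hs01 : s0 ≤ 1 := by rw [hs0, div_le_one hK1]; exact hK2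
  have hsq : s0 ^ 2 ≤ 1 := by nlinarith
  have hsq0 : 0 < s0 ^ 2 := by positivity
  refine ⟨1 - s0 ^ 2 / 2, by linarith, by linarith, ?_⟩
  have hprob := @unif_prob (SmpN M m k) _ _
  refine ⟨m + 1, m + 1, k, dc m K, SmpN M m k, ⊤, unif (SmpN M m k), hprob, OmN s0, ?_, ?_⟩
  · have := isOSI_OmN M m k hk1 s0 δ hs00 hs01 hkδ
    rw [show 1 - (1 - s0 ^ 2 / 2) = s0 ^ 2 / 2 by ring]
    exact this
  · refine lt_of_le_of_lt ((?_ : _ ≤ _).trans (near_prob M m k hk1 hm1 K C hK1 hC.le hK3))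
      (by linarith)
    let _ : MeasurableSpace (SmpN M m k) := ⊤
    have : IsProbabilityMeasure (unif (SmpN M m k)) := hprob
    refine measureReal_mono (fun s hs => ?_) (measure_ne_top _ _)
    have hs' : frob (dc m K - rsvd (dc m K) (OmN s0 s))
        ≤ (1 + C * (1 - s0 ^ 2 / 2)) * optErr (dc m K) 1 := hs
    refine hs'.trans (mul_le_mul_of_nonneg_right ?_ (optErr_nonneg _ 1))
    nlinarith

theorem result :
    -- `pinv B` is the Moore-Penrose pseudoinverse of `B`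
    (∀ (m n : ℕ) (B : Matrix (Fin m) (Fin n) ℝ), IsMoorePenrose B (pinv B) ∧
      ∀ X, IsMoorePenrose B X → X = pinv B) ∧
    -- Question 1, answer no
    (∀ C p : ℝ, 0 < C → 0 < p → ∃ ε₁ : ℝ, 0 < ε₁ ∧
      ∀ ε, 0 < ε → ε < ε₁ → FailsFor ε 0.01 (1 + C * ε) p) ∧
    -- Question 1, stronger: a fixed factor larger than one already fails
    (∃ η : ℝ, 0 < η ∧ ∀ p : ℝ, 0 < p → ∀ ε : ℝ, 0 ≤ ε → FailsFor ε 0.01 (1 + η) p) ∧
    -- Question 2, answer yes, with failure probability at most `ε`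
    (∀ (n d k r : ℕ) (A : Matrix (Fin n) (Fin d) ℝ) (S : Type) (_ : MeasurableSpace S)
      (P : Measure S) (_ : IsProbabilityMeasure P) (Om : S → Matrix (Fin d) (Fin k) ℝ)
      (ε δ : ℝ), 1 ≤ r → r ≤ d → 0 < ε → ε ≤ 1 / 2 → δ ≤ ε → IsOSI P Om r (1 - ε) δ →
      ∃ T : Set S, MeasurableSet T ∧ 1 / 4 ≤ P.real T ∧
        ∀ s ∈ T, frob (A - rsvd A (Om s)) ≤ (1 + 48 * ε) * optErr A r) ∧
    -- Question 2, all `ε < 1` and every confidence level
    (∀ (n d k r : ℕ) (A : Matrix (Fin n) (Fin d) ℝ) (S : Type) (_ : MeasurableSpace S)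
      (P : Measure S) (_ : IsProbabilityMeasure P) (Om : S → Matrix (Fin d) (Fin k) ℝ)
      (ε δ γ : ℝ), 1 ≤ r → r ≤ d → 0 < ε → ε < 1 → δ ≤ ε → 0 < γ → IsOSI P Om r (1 - ε) δ →
      ∃ T : Set S, MeasurableSet T ∧ 1 - δ - γ ≤ P.real T ∧
        ∀ s ∈ T, frob (A - rsvd A (Om s)) ≤ (1 + 6 * ε / (γ * (1 - ε))) * optErr A r) ∧
    -- as `ε` tends to `1` the constant must blow up, however small the failure probability
    (∀ C p δ : ℝ, 0 < C → 0 < p → 0 < δ → ∃ ε : ℝ, 0 < ε ∧ ε < 1 ∧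
      FailsFor ε δ (1 + C * ε) p) := by
  refine ⟨fun m n B => ⟨pinv_spec B, fun X hX => mp_unique B X _ hX (pinv_spec B)⟩,
    q1_literal, q1_strong, ?_, ?_, near_one⟩
  · intro n d k r A S _ P _ Om ε δ hr hrd hε hε2 hδ h
    obtain ⟨T, hT1, hT2, hT3⟩ := q2_main P A Om r hr hrd ε δ (1 / 4) hε (by linarith) hδ
      (by norm_num) h
    refine ⟨T, hT1, by linarith, fun s hs => (hT3 s hs).trans ?_⟩
    refine mul_le_mul_of_nonneg_right ?_ (optErr_nonneg A r)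
    have h1 : 0 < 1 - ε := by linarith
    have : 6 * ε / (1 / 4 * (1 - ε)) ≤ 48 * ε := by
      rw [div_le_iff₀ (by positivity)]
      nlinarith
    linarith
  · intro n d k r A S _ P _ Om ε δ γ hr hrd hε hε2 hδ hγ h
    exact q2_main P A Om r hr hrd ε δ γ hε hε2 hδ hγ h

end Pool.Agent.Results.MP_082b65_an.RandomizedSVD
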